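import Mathlib
import Pool.Agent.Lib.MP_9571c3_co.NonLosing

set_option autoImplicit false

/-!
# Drawn strong Ramsey games of large minimum degree, with drawing strategies for both players

The strong Ramsey game of a finite hypergraph `H` with all edges of size `k`, on the complete
`k`-uniform hypergraph with vertex set `ℕ`. A play is a sequence `m 0, m 1, m 2, …` of edges;
player `0` (the first player) makes the moves with even index, player `1` (the second player)
those with odd index.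
-/

namespace Pool.Agent.Results.MP_9571c3_co.BothPlayersDraw

/-- Move number `i` of the play `m` claims an edge of the board (a `k`-subset of `ℕ`) that has not
been claimed before. -/
def Legal (k : ℕ) (m : ℕ → Finset ℕ) (i : ℕ) : Prop :=
  (m i).card = k ∧ ∀ j < i, m j ≠ m i

/-- `P` contains (as claimed edges) a copy of `H`. -/
def HasCopy {n : ℕ} (H : Finset (Finset (Fin n))) (P : Set (Finset ℕ)) : Prop :=
  ∃ f : Fin n → ℕ, Function.Injective f ∧ ∀ e ∈ H, e.image f ∈ P

/-- The edges claimed by player `c` with the moves number `0, …, N`. -/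
def claimed (c : Fin 2) (m : ℕ → Finset ℕ) (N : ℕ) : Set (Finset ℕ) :=
  {x | ∃ i ≤ N, i % 2 = (c : ℕ) ∧ m i = x}

/-- Player `c` wins the play with move number `N`: it is his move, after it he owns a copy of `H`,
and his opponent owns none. -/
def WinsAt {n : ℕ} (H : Finset (Finset (Fin n))) (c : Fin 2) (m : ℕ → Finset ℕ) (N : ℕ) : Prop :=
  N % 2 = (c : ℕ) ∧ HasCopy H (claimed c m N) ∧ ¬ HasCopy H (claimed (1 - c) m N)

/-- In the play `m` player `c` follows the strategy `s`, which prescribes his next edge as a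
function of the sequence of all previous moves. -/
def Follows (c : Fin 2) (s : List (Finset ℕ) → Finset ℕ) (m : ℕ → Finset ℕ) : Prop :=
  ∀ i : ℕ, i % 2 = (c : ℕ) → m i = s (List.ofFn (fun j : Fin i => m j))

/-- Player `c` has a winning strategy: against every legal play of the opponent he wins after
finitely many moves, all his moves up to then being legal. -/
def HasWinningStrategy {n : ℕ} (k : ℕ) (H : Finset (Finset (Fin n))) (c : Fin 2) : Prop :=
  ∃ s : List (Finset ℕ) → Finset ℕ, ∀ m : ℕ → Finset ℕ, Follows c s m →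
    (∀ i : ℕ, i % 2 ≠ (c : ℕ) → Legal k m i) →
    ∃ N : ℕ, (∀ i ≤ N, i % 2 = (c : ℕ) → Legal k m i) ∧ WinsAt H c m N

/-- Player `c` has a drawing (never losing) strategy: against every legal play of the opponent all
his moves are legal and the opponent never wins. -/
def HasDrawingStrategy {n : ℕ} (k : ℕ) (H : Finset (Finset (Fin n))) (c : Fin 2) : Prop :=
  ∃ s : List (Finset ℕ) → Finset ℕ, ∀ m : ℕ → Finset ℕ, Follows c s m →
    (∀ i : ℕ, i % 2 ≠ (c : ℕ) → Legal k m i) →
    (∀ i : ℕ, i % 2 = (c : ℕ) → Legal k m i) ∧ ∀ N : ℕ, ¬ WinsAt H (1 - c) m N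

section proof

open Pool.Agent.Lib.MP_9571c3_co Finset

variable {V : Type} [Fintype V] [DecidableEq V] {d k N ρ : ℕ}

/-- a copy among the claimed edges is a copy of the design -/
lemma hasCopy_sel (D : Design V d k N ρ) (p : ℕ → Prop) [DecidablePred p] (m : ℕ → Finset ℕ)
    (M : ℕ) (P : Set (Finset ℕ)) (hP : ∀ x, x ∈ P ↔ x ∈ sel p m M) :
    HasCopy (D.H.image (fun e => e.image (Fintype.equivFin V))) P ↔ D.HasCopy (sel p m M) := by
  constructor
  · rintro ⟨f, hf, h⟩
    refine ⟨f ∘ Fintype.equivFin V, hf.comp (Fintype.equivFin V).injective, ?_⟩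
    intro e he
    have := h (e.image (Fintype.equivFin V)) (mem_image_of_mem _ he)
    rw [Finset.image_image, hP] at this
    exact this
  · rintro ⟨g, hg, h⟩
    refine ⟨g ∘ (Fintype.equivFin V).symm, hg.comp (Fintype.equivFin V).symm.injective, ?_⟩
    intro a ha
    obtain ⟨e, he, rfl⟩ := mem_image.mp ha
    rw [Finset.image_image, hP]
    have : (g ∘ (Fintype.equivFin V).symm) ∘ (Fintype.equivFin V) = g := by
      funext v
      simp
    rw [this]
    exact h e he

lemma hasCopy_mono {n : ℕ} {H : Finset (Finset (Fin n))} {P Q : Set (Finset ℕ)} (h : P ⊆ Q) :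
    HasCopy H P → HasCopy H Q := by
  rintro ⟨f, hf, hc⟩
  exact ⟨f, hf, fun e he => h (hc e he)⟩

lemma drawing (D : Design V d k N ρ) (c : Fin 2) :
    HasDrawingStrategy k (D.H.image (fun e => e.image (Fintype.equivFin V))) c := by
  have hk : 0 < k := by
    rw [← D.card_edge D.L1_mem_H]
    exact card_pos.mpr ⟨D.w, D.wL1⟩
  have hc2 : (c : ℕ) < 2 := c.2
  have hneg : (((1 - c : Fin 2)) : ℕ) = 1 - (c : ℕ) := by
    fin_cases c <;> rfl
  have hp : ∀ i : ℕ, (i + 1) % 2 ≠ (c : ℕ) ↔ ¬ (i % 2 ≠ (c : ℕ)) := by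
    intro i; omega
  have hbase : ∀ m : ℕ → Finset ℕ, D.Inv (sel (fun i => i % 2 ≠ (c : ℕ)) m (1 - (c : ℕ)))
      (sel (fun i => ¬ (i % 2 ≠ (c : ℕ))) m (1 - (c : ℕ))) := by
    intro m
    have hc01 : (c : ℕ) = 0 ∨ (c : ℕ) = 1 := by omega
    rcases hc01 with h | h
    · have e1 : sel (fun i => i % 2 ≠ (c : ℕ)) m (1 - (c : ℕ)) = ∅ := by
        ext x
        simp [mem_sel, h]
      have e2 : sel (fun i => ¬ (i % 2 ≠ (c : ℕ))) m (1 - (c : ℕ)) = {m 0} := by
        ext x
        simp [mem_sel, h, eq_comm]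
      rw [e1, e2]
      exact ⟨disjoint_empty_left _, Or.inl ⟨rfl, by simp⟩⟩
    · have e1 : sel (fun i => i % 2 ≠ (c : ℕ)) m (1 - (c : ℕ)) = ∅ := by
        ext x
        simp [mem_sel, h]
      have e2 : sel (fun i => ¬ (i % 2 ≠ (c : ℕ))) m (1 - (c : ℕ)) = ∅ := by
        ext x
        simp [mem_sel, h]
      rw [e1, e2]
      exact ⟨disjoint_empty_left _, Or.inl ⟨rfl, by simp⟩⟩
  have hi0 : (1 - (c : ℕ)) % 2 ≠ (c : ℕ) := by omega
  obtain ⟨σ, hσ⟩ := exists_nonlosing hk (fun X => D.HasCopy X)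
    (fun X Y hXY ⟨g, hg, h⟩ => ⟨g, hg, fun e he => hXY (h e he)⟩) D.Inv
    (fun G S hI e heG heS => Design.step hI heG heS)
    (fun i => i % 2 ≠ (c : ℕ)) hp (1 - (c : ℕ)) hi0 hbase
  refine ⟨σ, ?_⟩
  intro m hfol hleg
  obtain ⟨h1, h2⟩ := hσ m (fun i hi => hfol i (not_not.mp hi)) hleg
  refine ⟨fun i hi => h1 i (not_not.mpr hi), ?_⟩
  rintro M ⟨hM1, hM2, hM3⟩
  rw [hneg] at hM1
  have hp' : M % 2 ≠ (c : ℕ) := by omega
  have hM0 : 1 - (c : ℕ) ≤ M := by omega
  have hA := (hasCopy_sel D (fun i => i % 2 ≠ (c : ℕ)) m (M + 1) (claimed (1 - c) m M) (by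
    intro x
    rw [mem_sel]
    constructor
    · rintro ⟨i, hi, hi2, rfl⟩
      rw [hneg] at hi2
      exact ⟨i, by omega, by omega, rfl⟩
    · rintro ⟨i, hi, hi2, rfl⟩
      exact ⟨i, by omega, by rw [hneg]; omega, rfl⟩)).mp hM2
  have hB := h2 M hM0 hp' hA
  apply hM3
  have hcc : (1 - (1 - c) : Fin 2) = c := by fin_cases c <;> rfl
  rw [hcc]
  have hC := (hasCopy_sel D (fun i => ¬ (i % 2 ≠ (c : ℕ))) m M
    {x | ∃ i < M, i % 2 = (c : ℕ) ∧ m i = x} (by
    intro x
    rw [mem_sel]
    constructor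
    · rintro ⟨i, hi, hi2, rfl⟩
      exact ⟨i, hi, not_not.mpr hi2, rfl⟩
    · rintro ⟨i, hi, hi2, rfl⟩
      exact ⟨i, hi, not_not.mp hi2, rfl⟩)).mpr hB
  refine hasCopy_mono ?_ hC
  rintro x ⟨i, hi, hi2, rfl⟩
  exact ⟨i, le_of_lt hi, hi2, rfl⟩

lemma claimed_congr {m m' : ℕ → Finset ℕ} {N : ℕ} (h : ∀ i ≤ N, m i = m' i) (c : Fin 2) :
    claimed c m N = claimed c m' N := by
  ext x
  constructor
  · rintro ⟨i, hi, hc, rfl⟩
    exact ⟨i, hi, hc, (h i hi).symm⟩
  · rintro ⟨i, hi, hc, rfl⟩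
    exact ⟨i, hi, hc, h i hi⟩

/-- A player whose opponent has a drawing strategy has no winning strategy. -/
lemma not_winning {n k : ℕ} (hk : 0 < k) (H : Finset (Finset (Fin n))) (c : Fin 2)
    (hd : HasDrawingStrategy k H (1 - c)) : ¬ HasWinningStrategy k H c := by
  classical
  rintro ⟨s, hs⟩
  obtain ⟨t, ht⟩ := hd
  have hc2 : (c : ℕ) < 2 := c.2
  have hneg : (((1 - c : Fin 2)) : ℕ) = 1 - (c : ℕ) := by
    fin_cases c <;> rfl
  have hcc : (1 - (1 - c) : Fin 2) = c := by fin_cases c <;> rfl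
  have hdec : ∀ i : ℕ, i % 2 ≠ (c : ℕ) ↔ i % 2 = ((1 - c : Fin 2) : ℕ) := by
    intro i; rw [hneg]; omega
  -- repairing illegal moves
  have hfix : ∀ (h : List (Finset ℕ)) (y : Finset ℕ), ∃ y' : Finset ℕ,
      (y'.card = k ∧ ∀ x ∈ h, x ≠ y') ∧ ((y.card = k ∧ ∀ x ∈ h, x ≠ y) → y' = y) := by
    intro h y
    by_cases hy : y.card = k ∧ ∀ x ∈ h, x ≠ y
    · exact ⟨y, hy, fun _ => rfl⟩
    · obtain ⟨y', h1, h2⟩ := exists_legal hk h.toFinset
      refine ⟨y', ⟨h1, ?_⟩, fun h => absurd h hy⟩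
      rintro x hx rfl
      exact h2 (List.mem_toFinset.mpr hx)
  choose fix hfix1 hfix2 using hfix
  have hleg : ∀ (m : ℕ → Finset ℕ) (i : ℕ) (y : Finset ℕ),
      (y.card = k ∧ ∀ x ∈ List.ofFn (fun j : Fin i => m j), x ≠ y) ↔
      (y.card = k ∧ ∀ j < i, m j ≠ y) := by
    intro m i y
    constructor
    · rintro ⟨h1, h2⟩
      exact ⟨h1, fun j hj => h2 _ ((List.mem_ofFn' _ _).mpr ⟨⟨j, hj⟩, rfl⟩)⟩
    · rintro ⟨h1, h2⟩
      refine ⟨h1, fun x hx => ?_⟩
      obtain ⟨j, rfl⟩ := (List.mem_ofFn' _ _).mp hx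
      exact h2 j j.2
  obtain ⟨m, hm⟩ := exists_play (fun h => if h.length % 2 = (c : ℕ) then s h else fix h (t h))
  obtain ⟨m', hm'⟩ := exists_play (fun h => if h.length % 2 = (c : ℕ) then fix h (s h) else t h)
  have hmc : ∀ i, i % 2 = (c : ℕ) → m i = s (List.ofFn (fun j : Fin i => m j)) := by
    intro i hi
    rw [hm i]
    simp only [List.length_ofFn]
    rw [if_pos hi]
  have hmd : ∀ i, i % 2 ≠ (c : ℕ) → m i = fix (List.ofFn (fun j : Fin i => m j))
      (t (List.ofFn (fun j : Fin i => m j))) := by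
    intro i hi
    rw [hm i]
    simp only [List.length_ofFn]
    rw [if_neg hi]
  have hmc' : ∀ i, i % 2 = (c : ℕ) → m' i = fix (List.ofFn (fun j : Fin i => m' j))
      (s (List.ofFn (fun j : Fin i => m' j))) := by
    intro i hi
    rw [hm' i]
    simp only [List.length_ofFn]
    rw [if_pos hi]
  have hmd' : ∀ i, i % 2 ≠ (c : ℕ) → m' i = t (List.ofFn (fun j : Fin i => m' j)) := by
    intro i hi
    rw [hm' i]
    simp only [List.length_ofFn]
    rw [if_neg hi]
  -- the strategy `s` wins against `fix t`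
  obtain ⟨N, hN1, hN2⟩ := hs m hmc (by
    intro i hi
    have h1 := hfix1 (List.ofFn (fun j : Fin i => m j)) (t (List.ofFn (fun j : Fin i => m j)))
    rw [← hmd i hi] at h1
    exact (hleg m i (m i)).mp h1)
  -- the strategy `t` does not lose against `fix s`
  obtain ⟨hT1, hT2⟩ := ht m' (fun i hi => hmd' i ((hdec i).mpr hi)) (by
    intro i hi
    have hi' : i % 2 = (c : ℕ) := by
      by_contra h
      exact hi ((hdec i).mp h)
    have h1 := hfix1 (List.ofFn (fun j : Fin i => m' j)) (s (List.ofFn (fun j : Fin i => m' j)))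
    rw [← hmc' i hi'] at h1
    exact (hleg m' i (m' i)).mp h1)
  -- the two plays agree up to `N`
  have hagree : ∀ i, i ≤ N → m i = m' i := by
    intro i
    induction i using Nat.strong_induction_on with
    | _ i ih =>
      intro hi
      have hlist : List.ofFn (fun j : Fin i => m j) = List.ofFn (fun j : Fin i => m' j) := by
        congr 1
        funext j
        exact ih j j.2 (le_trans (le_of_lt j.2) hi)
      by_cases hc : i % 2 = (c : ℕ)
      · have h1 := hN1 i hi hc
        have h2 := (hleg m i (m i)).mpr h1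
        rw [hmc' i hc, ← hlist, ← hmc i hc]
        exact (hfix2 _ _ h2).symm
      · have h1 := hT1 i ((hdec i).mp hc)
        have h2 := (hleg m' i (m' i)).mpr h1
        rw [hmd i hc, hlist, ← hmd' i hc]
        exact hfix2 _ _ h2
  apply hT2 N
  rw [hcc]
  obtain ⟨h1, h2, h3⟩ := hN2
  rw [claimed_congr hagree] at h2 h3
  exact ⟨h1, h2, h3⟩

theorem main_result (d : ℕ) :
    ∃ (k n : ℕ) (H : Finset (Finset (Fin n))), 2 ≤ k ∧ 0 < n ∧
      (∀ e ∈ H, e.card = k) ∧
      (∀ v : Fin n, d ≤ (H.filter (fun e => v ∈ e)).card) ∧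
      (∀ c : Fin 2, HasDrawingStrategy k H c) ∧
      (∀ c : Fin 2, ¬ HasWinningStrategy k H c) := by
  obtain ⟨V, _, _, k, N, ρ, ⟨D⟩⟩ := exists_design (max d 3) (le_max_right _ _)
  set ε := Fintype.equivFin V with hε
  set H' : Finset (Finset (Fin (Fintype.card V))) := D.H.image (fun e => e.image ε) with hH'
  have hinj : Function.Injective (fun e : Finset V => e.image ε) :=
    Finset.image_injective ε.injective
  have hunif : ∀ e ∈ H', e.card = k := by
    intro e he
    obtain ⟨e', he', rfl⟩ := mem_image.mp he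
    rw [card_image_of_injective _ ε.injective, D.card_edge he']
  have hdeg : ∀ v : Fin (Fintype.card V), max d 3 ≤ (H'.filter (fun e => v ∈ e)).card := by
    intro v
    have h1 : H'.filter (fun e => v ∈ e) =
        (D.H.filter (fun e => ε.symm v ∈ e)).image (fun e => e.image ε) := by
      ext x
      simp only [hH', mem_filter, mem_image]
      constructor
      · rintro ⟨⟨e, he, rfl⟩, hv⟩
        obtain ⟨u, hu, huv⟩ := mem_image.mp hv
        refine ⟨e, ⟨he, ?_⟩, rfl⟩
        rw [← huv]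
        simpa using hu
      · rintro ⟨e, ⟨he, hv⟩, rfl⟩
        exact ⟨⟨e, he, rfl⟩, mem_image.mpr ⟨ε.symm v, hv, by simp⟩⟩
    rw [h1, card_image_of_injective _ hinj]
    by_cases hv : ε.symm v = D.w
    · rw [hv]
      calc max d 3 = D.W.card := D.cardW.symm
        _ ≤ _ := by
          apply card_le_card
          intro e he
          exact mem_filter.mpr ⟨D.W_sub he, D.w_mem_of_W he⟩
    · have h2 := D.deg (ε.symm v) hv
      have h3 : (D.C.filter (fun e => ε.symm v ∈ e)).card ≤
          (D.H.filter (fun e => ε.symm v ∈ e)).card :=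
        card_le_card (filter_subset_filter _ D.C_sub)
      omega
  have hn : 0 < Fintype.card V := Fintype.card_pos_iff.mpr ⟨D.w⟩
  have hk2 : 2 ≤ k := by
    by_contra hlt
    have hk1 : k ≤ 1 := by omega
    have hle : (H'.filter (fun e => (⟨0, hn⟩ : Fin (Fintype.card V)) ∈ e)).card ≤ 1 := by
      rw [card_le_one]
      intro a ha b hb
      rw [mem_filter] at ha hb
      have ha1 : a.card ≤ 1 := by rw [hunif a ha.1]; exact hk1
      have hb1 : b.card ≤ 1 := by rw [hunif b hb.1]; exact hk1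
      have ha2 : a = {(⟨0, hn⟩ : Fin (Fintype.card V))} :=
        (eq_of_subset_of_card_le (singleton_subset_iff.mpr ha.2) (by
          rw [card_singleton]; exact ha1)).symm
      have hb2 : b = {(⟨0, hn⟩ : Fin (Fintype.card V))} :=
        (eq_of_subset_of_card_le (singleton_subset_iff.mpr hb.2) (by
          rw [card_singleton]; exact hb1)).symm
      rw [ha2, hb2]
    have := hdeg ⟨0, hn⟩
    have h3 : 3 ≤ max d 3 := le_max_right _ _
    omega
  have hdraw : ∀ c : Fin 2, HasDrawingStrategy k H' c := fun c => drawing D c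
  exact ⟨k, Fintype.card V, H', hk2, hn, hunif,
    fun v => le_trans (le_max_left _ _) (hdeg v), hdraw,
    fun c => not_winning (by omega) H' c (hdraw (1 - c))⟩

end proof

/-- For every `d` there are `k ≥ 2` and a finite `k`-uniform hypergraph `H` with minimum degree at
least `d` such that in the strong Ramsey game of `H` on the complete `k`-uniform hypergraph on `ℕ`
each of the two players has a strategy which never loses; in particular no player has a winning
strategy and the game is a draw. -/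
theorem result (d : ℕ) :
    ∃ (k n : ℕ) (H : Finset (Finset (Fin n))), 2 ≤ k ∧ 0 < n ∧
      (∀ e ∈ H, e.card = k) ∧
      (∀ v : Fin n, d ≤ (H.filter (fun e => v ∈ e)).card) ∧
      (∀ c : Fin 2, HasDrawingStrategy k H c) ∧
      (∀ c : Fin 2, ¬ HasWinningStrategy k H c) :=
  main_result d

end Pool.Agent.Results.MP_9571c3_co.BothPlayersDraw
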